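import Pool.Agent.Helper2.LD.St1b
import Pool.Agent.Helper2.LD.St2b

/-!
# LD project: module FD (distances and strong gadgets in the full graph)
-/

set_option autoImplicit false

namespace Pool.Agent.Helper27.LD

open Pool.Agent.Helper2.LD

private lemma full_adj {K V : Type} {k : ℕ} {C : KCode k K} {S : SimpleGraph V}
    {lab : V → Finset K} (u v : FullV k C lab) : (full k C S lab).Adj u v ↔
      ((brG K S (HH k)).Adj (own u) (own v) ∧ fb u = Fb.root ∧ fb v = Fb.root) ∨
      (own u = own v ∧ Fb.adj (fb u) (fb v)) := Iff.rfl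

private def dpt {K : Type} : Fb K → ℕ
  | Fb.root => 0
  | Fb.a1 _ _ => 1
  | Fb.a2 _ _ => 2
  | Fb.r _ _ => 3
  | Fb.lf _ _ _ => 4
  | Fb.mk _ _ _ j => j + 1

private lemma dpt_par {K : Type} (f : Fb K) :
    dpt f ≤ dpt f.par + 1 ∧ dpt f.par ≤ dpt f + 1 := by
  cases f with
  | root => simp [dpt, Fb.par]
  | a1 κ c => simp [dpt, Fb.par]
  | a2 κ c => simp [dpt, Fb.par]
  | r κ c => simp [dpt, Fb.par]
  | lf κ c i => simp [dpt, Fb.par]
  | mk κ c i j =>
    simp only [Fb.par]
    split_ifs with h
    · simp only [dpt]; omega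
    · simp only [dpt]; omega

private lemma dpt_adj {K : Type} {f g : Fb K} (h : Fb.adj f g) : dpt g ≤ dpt f + 1 := by
  rcases h with ⟨_, rfl⟩ | ⟨_, rfl⟩
  · exact (dpt_par f).2
  · exact (dpt_par g).1

private lemma walk_bound {K V : Type} {k : ℕ} {C : KCode k K} {S : SimpleGraph V}
    {lab : V → Finset K} (z : BrV K V (HH k)) {u v : FullV k C lab}
    (w : (full k C S lab).Walk u v) :
    (brG K S (HH k)).edist z (own v) + (dpt (fb v) : ℕ∞) ≤
      (brG K S (HH k)).edist z (own u) + (dpt (fb u) : ℕ∞) + (w.length : ℕ∞) := by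
  induction w with
  | nil => simp
  | @cons u v' w h p ih =>
    have hst : (brG K S (HH k)).edist z (own v') + (dpt (fb v') : ℕ∞) ≤
        (brG K S (HH k)).edist z (own u) + (dpt (fb u) : ℕ∞) + 1 := by
      rcases (full_adj u v').1 h with ⟨h1, h2, h3⟩ | ⟨h1, h2⟩
      · rw [h2, h3]
        have h4 := SimpleGraph.edist_triangle (G := brG K S (HH k)) (u := z) (v := own u)
          (w := own v')
        rw [SimpleGraph.edist_eq_one_iff_adj.2 h1] at h4
        simpa [dpt] using h4
      · rw [h1, add_assoc]
        gcongr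
        exact_mod_cast dpt_adj h2
    refine ih.trans ?_
    rw [SimpleGraph.Walk.length_cons]
    push_cast
    calc (brG K S (HH k)).edist z (own v') + (dpt (fb v') : ℕ∞) + (p.length : ℕ∞)
        ≤ (brG K S (HH k)).edist z (own u) + (dpt (fb u) : ℕ∞) + 1 + (p.length : ℕ∞) := by
          gcongr
      _ = _ := by ring

private lemma lower {K V : Type} {k : ℕ} {C : KCode k K} {S : SimpleGraph V}
    {lab : V → Finset K} {u v : FullV k C lab} (hu : fb u = Fb.root) :
    (brG K S (HH k)).edist (own u) (own v) + (dpt (fb v) : ℕ∞) ≤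
      (full k C S lab).edist u v := by
  by_cases hr : (full k C S lab).Reachable u v
  · obtain ⟨w, hw⟩ := hr.exists_walk_length_eq_edist
    have h := walk_bound (own u) w
    rw [SimpleGraph.edist_self, hu] at h
    rw [← hw]
    simpa [dpt] using h
  · rw [SimpleGraph.edist_eq_top_of_not_reachable hr]
    exact le_top

/-- The name `f` at the plain vertex `x`. -/
private def nm {K V : Type} {k : ℕ} (C : KCode k K) (lab : V → Finset K)
    (x : BrV K V (HH k)) (f : Fb K) (h : Fb.ok (MM k) C.code (brL lab x) f) : FullV k C lab :=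
  ⟨(x, f), h⟩

private lemma nm_eq {K V : Type} {k : ℕ} {C : KCode k K} {lab : V → Finset K}
    {x : BrV K V (HH k)} {f : Fb K} {h : Fb.ok (MM k) C.code (brL lab x) f}
    {u : FullV k C lab} (h1 : own u = x) (h2 : fb u = f) : u = nm C lab x f h := by
  apply Subtype.ext
  exact Prod.ext h1 h2

private lemma fv_ext {K V : Type} {k : ℕ} {C : KCode k K} {lab : V → Finset K}
    {u v : FullV k C lab} (h1 : own u = own v) (h2 : fb u = fb v) : u = v := by
  apply Subtype.ext
  exact Prod.ext h1 h2

private lemma upper {K V : Type} {k : ℕ} {C : KCode k K} {S : SimpleGraph V}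
    {lab : V → Finset K} {u v : FullV k C lab} (hu : fb u = Fb.root) (hv : fb v = Fb.root) :
    (full k C S lab).edist u v ≤ (brG K S (HH k)).edist (own u) (own v) := by
  by_cases hr : (brG K S (HH k)).Reachable (own u) (own v)
  · obtain ⟨w, hw⟩ := hr.exists_walk_length_eq_edist
    rw [← hw]
    let φ : brG K S (HH k) →g full k C S lab :=
      { toFun := fun x => nm C lab x Fb.root trivial
        map_rel' := by
          intro a b hab
          exact Or.inl ⟨hab, rfl, rfl⟩ }
    have h1 : φ (own u) = u := (nm_eq rfl hu).symm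
    have h2 : φ (own v) = v := (nm_eq rfl hv).symm
    have h3 : (full k C S lab).edist (φ (own u)) (φ (own v)) ≤ (w.length : ℕ∞) := by
      have h4 := SimpleGraph.edist_le (w.map φ)
      rwa [SimpleGraph.Walk.length_map] at h4
    rwa [h1, h2] at h3
  · rw [SimpleGraph.edist_eq_top_of_not_reachable hr]
    exact le_top

private lemma adj_nm {K V : Type} {k : ℕ} {C : KCode k K} {S : SimpleGraph V}
    {lab : V → Finset K} {x : BrV K V (HH k)} {f g : Fb K}
    {hf : Fb.ok (MM k) C.code (brL lab x) f} {hg : Fb.ok (MM k) C.code (brL lab x) g}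
    (h : f ≠ Fb.root) (h2 : g = f.par) :
    (full k C S lab).Adj (nm C lab x f hf) (nm C lab x g hg) :=
  (full_adj _ _).2 (Or.inr ⟨rfl, Or.inl ⟨h, h2⟩⟩)

private lemma edist_adj {V : Type} {G : SimpleGraph V} {u v w : V} (h : G.Adj v w) :
    G.edist u w ≤ G.edist u v + 1 := by
  have h4 := SimpleGraph.edist_triangle (G := G) (u := u) (v := v) (w := w)
  rwa [SimpleGraph.edist_eq_one_iff_adj.2 h] at h4

private lemma leaf_nb {K V : Type} {k : ℕ} {C : KCode k K} {S : SimpleGraph V}
    {lab : V → Finset K} {u v : FullV k C lab} {κ : K} {c : Bool} {i : ℕ}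
    (hu : fb u = Fb.lf κ c i) :
    (full k C S lab).Adj u v ↔ own v = own u ∧ fb v = Fb.r κ c := by
  rw [full_adj]
  constructor
  · rintro (⟨h1, h2, h3⟩ | ⟨h1, h2⟩)
    · rw [hu] at h2
      cases h2
    · refine ⟨h1.symm, ?_⟩
      rw [hu] at h2
      rcases h2 with ⟨_, h3⟩ | ⟨h3, h4⟩
      · simpa [Fb.par] using h3
      · exfalso
        revert h3 h4
        cases fb v with
        | root => simp
        | a1 κ c => simp [Fb.par]
        | a2 κ c => simp [Fb.par]
        | r κ c => simp [Fb.par]
        | lf κ c i => simp [Fb.par]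
        | mk κ c i j =>
          intro _ h4
          simp only [Fb.par] at h4
          split_ifs at h4
  · rintro ⟨h1, h2⟩
    refine Or.inr ⟨h1.symm, Or.inl ⟨by rw [hu]; simp, by rw [hu, h2]; rfl⟩⟩

private lemma r_nb {K V : Type} {k : ℕ} {C : KCode k K} {S : SimpleGraph V}
    {lab : V → Finset K} {u v : FullV k C lab} {κ : K} {c : Bool}
    (hu : fb u = Fb.r κ c) :
    (full k C S lab).Adj u v ↔ own v = own u ∧ (fb v = Fb.a2 κ c ∨ ∃ i, fb v = Fb.lf κ c i) := by
  rw [full_adj]
  constructor
  · rintro (⟨h1, h2, h3⟩ | ⟨h1, h2⟩)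
    · rw [hu] at h2
      cases h2
    · refine ⟨h1.symm, ?_⟩
      rw [hu] at h2
      rcases h2 with ⟨_, h3⟩ | ⟨h3, h4⟩
      · left
        simpa [Fb.par] using h3
      · right
        revert h3 h4
        cases fb v with
        | root => simp
        | a1 κ c => simp [Fb.par]
        | a2 κ c => simp [Fb.par]
        | r κ c => simp [Fb.par]
        | lf κ' c' i =>
          intro _ h4
          simp only [Fb.par] at h4
          refine ⟨i, ?_⟩
          simp only [Fb.r.injEq] at h4
          rw [h4.1, h4.2]
        | mk κ c i j =>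
          intro _ h4
          simp only [Fb.par] at h4
          split_ifs at h4
  · rintro ⟨h1, h2 | ⟨i, h2⟩⟩
    · refine Or.inr ⟨h1.symm, Or.inl ⟨by rw [hu]; simp, by rw [hu, h2]; rfl⟩⟩
    · refine Or.inr ⟨h1.symm, Or.inr ⟨by rw [h2]; simp, by rw [hu, h2]; rfl⟩⟩

private lemma par_nb {K V : Type} {k : ℕ} {C : KCode k K} {S : SimpleGraph V}
    {lab : V → Finset K} {u v : FullV k C lab} (h1 : own u = own v) (h2 : fb u ≠ Fb.root)
    (h3 : fb v = (fb u).par) : (full k C S lab).Adj u v :=
  (full_adj _ _).2 (Or.inr ⟨h1, Or.inl ⟨h2, h3⟩⟩)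

private lemma fd_leaf {K V : Type} (k : ℕ) (C : KCode k K) (S : SimpleGraph V)
    (lab : V → Finset K) (u v : FullV k C lab) (κ : K) (c : Bool) (i : ℕ)
    (hu : fb u = Fb.root) (hv : fb v = Fb.lf κ c i) :
    (full k C S lab).edist u v = (brG K S (HH k)).edist (own u) (own v) + 4 := by
  apply le_antisymm
  · let x := own v
    let v0 : FullV k C lab := nm C lab x Fb.root trivial
    let v1 : FullV k C lab := nm C lab x (Fb.a1 κ c) trivial
    let v2 : FullV k C lab := nm C lab x (Fb.a2 κ c) trivial
    let v3 : FullV k C lab := nm C lab x (Fb.r κ c) trivial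
    have e0 : (full k C S lab).edist u v0 ≤ (brG K S (HH k)).edist (own u) (own v) :=
      upper hu rfl
    have a1 : (full k C S lab).Adj v0 v1 :=
      (par_nb (u := v1) (v := v0) rfl (by intro h; cases h) rfl).symm
    have a2 : (full k C S lab).Adj v1 v2 :=
      (par_nb (u := v2) (v := v1) rfl (by intro h; cases h) rfl).symm
    have a3 : (full k C S lab).Adj v2 v3 :=
      (par_nb (u := v3) (v := v2) rfl (by intro h; cases h) rfl).symm
    have a4 : (full k C S lab).Adj v3 v := by
      refine (par_nb (u := v) (v := v3) rfl (by rw [hv]; simp) (by rw [hv]; rfl)).symm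
    have e1 := edist_adj (u := u) a1
    have e2 := edist_adj (u := u) a2
    have e3 := edist_adj (u := u) a3
    have e4 := edist_adj (u := u) a4
    calc (full k C S lab).edist u v ≤ (full k C S lab).edist u v3 + 1 := e4
      _ ≤ (full k C S lab).edist u v2 + 1 + 1 := by gcongr
      _ ≤ (full k C S lab).edist u v1 + 1 + 1 + 1 := by gcongr
      _ ≤ (full k C S lab).edist u v0 + 1 + 1 + 1 + 1 := by gcongr
      _ ≤ (brG K S (HH k)).edist (own u) (own v) + 1 + 1 + 1 + 1 := by gcongr
      _ = (brG K S (HH k)).edist (own u) (own v) + 4 := by ring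
  · have h := lower (S := S) (v := v) hu
    rw [hv] at h
    simpa [dpt] using h

private lemma fd_str {K V : Type} [DecidableEq K] (k : ℕ) (hk : 40 ≤ k)
    (C : KCode k K) (S : SimpleGraph V) (lab : V → Finset K) (v : FullV k C lab) (κ : K)
    (c : Bool) (i : ℕ) (hv : fb v = Fb.lf κ c i) :
    StrL (MM k) (full k C S lab) v ↔ (c = true ∧ κ ∈ brL lab (own v)) := by
  classical
  have hm : 1 ≤ MM k := by unfold MM; omega
  have hok : ∀ (w : FullV k C lab) (j : ℕ), own w = own v → fb w = Fb.lf κ c j →
      j < MM k ∨ (j = MM k ∧ c = true ∧ κ ∈ brL lab (own v)) := by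
    intro w j h1 h2
    have h3 : Fb.ok (MM k) C.code (brL lab (own w)) (fb w) := w.2
    rw [h1, h2] at h3
    exact h3
  constructor
  · rintro ⟨s, hs, hvs, hs2⟩
    by_contra hno
    -- every element of `insert v s` is a leaf of the gadget
    have key : ∀ w ∈ insert v s, own w = own v ∧ ∃ j, fb w = Fb.lf κ c j := by
      intro w hw
      rcases Finset.mem_insert.1 hw with rfl | hw
      · exact ⟨rfl, i, hv⟩
      · let y : FullV k C lab := nm C lab (own v) (Fb.r κ c) trivial
        have hy : (full k C S lab).Adj v y := (leaf_nb hv).2 ⟨rfl, rfl⟩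
        have hy2 : (full k C S lab).Adj y w := ((hs2 w hw y).1 hy).symm
        rcases (r_nb (u := y) (κ := κ) (c := c) rfl).1 hy2 with ⟨h1, h2 | h2⟩
        · exfalso
          let y1 : FullV k C lab := nm C lab (own v) (Fb.a1 κ c) trivial
          have hy3 : (full k C S lab).Adj w y1 :=
            par_nb h1 (by rw [h2]; simp) (by rw [h2]; rfl)
          have hy4 := (hs2 w hw y1).2 hy3
          have := ((leaf_nb hv).1 hy4).2
          cases this
        · exact ⟨h1, h2⟩
    choose! g hg using fun w hw => (key w hw).2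
    have hcard : (insert v s).card ≤ (Finset.range (MM k)).card := by
      apply Finset.card_le_card_of_injOn g
      · intro w hw
        rcases hok w (g w) (key w hw).1 (hg w hw) with h | ⟨_, h⟩
        · exact Finset.mem_coe.2 (Finset.mem_range.2 h)
        · exact absurd h hno
      · intro w hw w' hw' h
        apply fv_ext
        · rw [(key w hw).1, (key w' hw').1]
        · rw [hg w hw, hg w' hw', h]
    rw [Finset.card_insert_of_notMem hvs, hs, Finset.card_range] at hcard
    omega
  · rintro ⟨hc, hκ⟩
    let lf : ℕ → FullV k C lab := fun j =>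
      if h : j ≤ MM k then nm C lab (own v) (Fb.lf κ c j) (by
        rcases Nat.lt_or_ge j (MM k) with h2 | h2
        · exact Or.inl h2
        · exact Or.inr ⟨le_antisymm h h2, hc, hκ⟩) else v
    have hlf : ∀ j ≤ MM k, own (lf j) = own v ∧ fb (lf j) = Fb.lf κ c j := by
      intro j hj
      simp only [lf, dif_pos hj]
      exact ⟨rfl, rfl⟩
    have hi : i ≤ MM k := by
      rcases hok v i rfl hv with h | ⟨h, _⟩ <;> omega
    refine ⟨((Finset.range (MM k + 1)).erase i).image lf, ?_, ?_, ?_⟩
    · rw [Finset.card_image_of_injOn, Finset.card_erase_of_mem, Finset.card_range]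
      · rfl
      · rw [Finset.mem_range]; omega
      · intro a ha b hb hab
        have ha' : a ≤ MM k := by
          have := Finset.mem_range.1 (Finset.mem_of_mem_erase (Finset.mem_coe.1 ha)); omega
        have hb' : b ≤ MM k := by
          have := Finset.mem_range.1 (Finset.mem_of_mem_erase (Finset.mem_coe.1 hb)); omega
        have h1 := (hlf a ha').2
        have h2 := (hlf b hb').2
        have hab' : lf a = lf b := hab
        rw [hab', h2] at h1
        simp only [Fb.lf.injEq] at h1
        exact h1.2.2.symm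
    · intro hmem
      rcases Finset.mem_image.1 hmem with ⟨j, hj, hj2⟩
      have hj' : j ≤ MM k := by
        have := Finset.mem_range.1 (Finset.mem_of_mem_erase hj); omega
      have h1 := (hlf j hj').2
      rw [hj2, hv] at h1
      simp only [Fb.lf.injEq] at h1
      exact (Finset.ne_of_mem_erase hj) h1.2.2.symm
    · intro w hw x
      rcases Finset.mem_image.1 hw with ⟨j, hj, rfl⟩
      have hj' : j ≤ MM k := by
        have := Finset.mem_range.1 (Finset.mem_of_mem_erase hj); omega
      rw [leaf_nb hv, leaf_nb (hlf j hj').2, (hlf j hj').1]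

theorem pFD (hIs : StIs) (hDeg : StDegF) : StFD where
  dist := by
    intro K V k C S lab u v hu hv
    apply le_antisymm
    · exact upper hu hv
    · have h := lower (S := S) (v := v) hu
      rw [hv] at h
      simpa [dpt] using h
  leaf := by
    intro K V k C S lab u v κ c i hu hv
    exact fd_leaf k C S lab u v κ c i hu hv
  str := by
    intro K V _ _ k hk _ C S lab v κ c i hv
    exact fd_str k hk C S lab v κ c i hv
  strAt := by
    intro K V _ _ k hk hK C S lab v κ hv
    constructor
    · rintro ⟨w, x, y, h1, h2, h3, h4, h5, h6, h7⟩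
      have c1 : Cl.a1 κ = clOf (fb w) := (hIs k hk hK C S lab w (Cl.a1 κ) trivial).1 h2
      have c2 : Cl.a2 κ = clOf (fb x) := (hIs k hk hK C S lab x (Cl.a2 κ) trivial).1 h4
      have c3 : Cl.r κ = clOf (fb y) := (hIs k hk hK C S lab y (Cl.r κ) trivial).1 h6
      have d1 : fb w ≠ Fb.root := by intro h; rw [h] at c1; cases c1
      have d2 : fb x ≠ Fb.root := by intro h; rw [h] at c2; cases c2
      have d3 : fb y ≠ Fb.root := by intro h; rw [h] at c3; cases c3
      have o1 : own v = own w := by
        rcases (full_adj v w).1 h1 with ⟨_, _, h⟩ | ⟨h, _⟩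
        · exact absurd h d1
        · exact h
      have o2 : own w = own x := by
        rcases (full_adj w x).1 h3 with ⟨_, _, h⟩ | ⟨h, _⟩
        · exact absurd h d2
        · exact h
      have o3 : own x = own y := by
        rcases (full_adj x y).1 h5 with ⟨_, _, h⟩ | ⟨h, _⟩
        · exact absurd h d3
        · exact h
      have h8 := ((hDeg k hk hK C S lab y).2 d3 (MM k + 2)).1 h7
      have h9 : ∃ c, fb y = Fb.r κ c := by
        revert c3
        cases fb y with
        | root => intro h; cases h
        | a1 κ' c => intro h; cases h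
        | a2 κ' c => intro h; cases h
        | r κ' c => intro h; cases h; exact ⟨c, rfl⟩
        | lf κ' c i => intro h; cases h
        | mk κ' c i j => intro h; cases h
      obtain ⟨c, hc⟩ := h9
      rw [hc] at h8
      simp only [fdeg] at h8
      split_ifs at h8 with h10
      · rw [o1, o2, o3]; exact h10.2
      · omega
    · intro hκ
      let w : FullV k C lab := nm C lab (own v) (Fb.a1 κ true) trivial
      let x : FullV k C lab := nm C lab (own v) (Fb.a2 κ true) trivial
      let y : FullV k C lab := nm C lab (own v) (Fb.r κ true) trivial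
      refine ⟨w, x, y, ?_, ?_, ?_, ?_, ?_, ?_, ?_⟩
      · exact (par_nb (u := w) (v := v) rfl (by intro h; cases h) hv).symm
      · exact (hIs k hk hK C S lab w (Cl.a1 κ) trivial).2 rfl
      · exact (par_nb (u := x) (v := w) rfl (by intro h; cases h) rfl).symm
      · exact (hIs k hk hK C S lab x (Cl.a2 κ) trivial).2 rfl
      · exact (par_nb (u := y) (v := x) rfl (by intro h; cases h) rfl).symm
      · exact (hIs k hk hK C S lab y (Cl.r κ) trivial).2 rfl
      · refine ((hDeg k hk hK C S lab y).2 (by intro h; cases h) (MM k + 2)).2 ?_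
        show MM k + 2 ≤ fdeg (MM k) C.code (brL lab (own v)) (Fb.r κ true)
        simp only [fdeg]
        rw [if_pos ⟨trivial, hκ⟩]

end Pool.Agent.Helper27.LD
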